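import Mathlib
import Pool.Agent.H54.Helly2

set_option autoImplicit false
open Finset

namespace Pool.Agent.Results.MP_baf67b_al.HellyDim

variable {K : Type} [Field K] {N : ℕ}

/-- The value of a polynomial at a point of the torus `(K^×)^N`. -/
noncomputable def ev (f : MvPolynomial (Fin N) K) (x : Fin N → Kˣ) : K :=
  MvPolynomial.eval (fun i => (x i : K)) f

/-- Zariski closed subgroups of the torus `(K^×)^N`. -/
def ZClosed (H : Subgroup (Fin N → Kˣ)) : Prop :=
  ∃ P : Set (MvPolynomial (Fin N) K), ∀ x, x ∈ H ↔ ∀ f ∈ P, ev f x = 0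

/-- The product of the coordinates. -/
def det (x : Fin N → Kˣ) : K := ∏ i, (x i : K)

/-- The subgroup `G` as a group. -/
def Pt (G : Subgroup (Fin N → Kˣ)) : Type := G

instance (G : Subgroup (Fin N → Kˣ)) : CommGroup (Pt G) := Subgroup.toCommGroup G

/-- The point of the torus given by an element of `G`. -/
def Pt.val {G : Subgroup (Fin N → Kˣ)} (g : Pt G) : Fin N → Kˣ := Subtype.val g

/-- Characters of `G`: homomorphisms `G → K^×` given by a Laurent polynomial. -/
def IsChar (G : Subgroup (Fin N → Kˣ)) (χ : Pt G →* Kˣ) : Prop :=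
  ∃ (f : MvPolynomial (Fin N) K) (k : ℕ), ∀ g : Pt G, (χ g : K) * det g.val ^ k = ev f g.val

/-- The homomorphisms generated by `gen`. -/
def Span (G : Subgroup (Fin N → Kˣ)) {r : ℕ} (gen : Fin r → (Pt G →* Kˣ)) :
    Set (Pt G →* Kˣ) :=
  Subgroup.closure (Set.range gen)

/-- `gen` is a family of characters generating the character group `X(G)`. -/
def Gen (G : Subgroup (Fin N → Kˣ)) {r : ℕ} (gen : Fin r → (Pt G →* Kˣ)) : Prop :=
  (∀ k, IsChar G (gen k)) ∧ ∀ χ, IsChar G χ → χ ∈ Span G gen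

/-- The minimal number of generators of the character group `X(G)`. -/
noncomputable def rkX (G : Subgroup (Fin N → Kˣ)) : ℕ :=
  sInf {r : ℕ | ∃ gen : Fin r → (Pt G →* Kˣ), Gen G gen}

/-- The cosets `g i * H i`, `i ∈ S`, have a common point in `G`. -/
def Meet (G : Subgroup (Fin N → Kˣ)) {n : ℕ} (g : Fin n → (Fin N → Kˣ))
    (H : Fin n → Subgroup (Fin N → Kˣ)) (S : Finset (Fin n)) : Prop :=
  ∃ x ∈ G, ∀ i ∈ S, ∃ h ∈ H i, x = g i * h

open Pool.Agent.H54.Helly2

lemma isChar_mon (G : Subgroup (Fin N → Kˣ)) (a : Fin N → ℤ) :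
    IsChar G ((mon a).comp G.subtype) := by
  set k := ∑ i, (a i).natAbs with hk
  refine ⟨∏ i, MvPolynomial.X i ^ (a i + k).toNat, k, fun g : G => ?_⟩
  show ((((mon a).comp G.subtype) g : Kˣ) : K) * det g.1 ^ k = ev _ g.1
  simp only [ev, det, MonoidHom.comp_apply, Subgroup.coe_subtype, mon_apply, map_prod, map_pow,
    MvPolynomial.eval_X, ← prod_pow, Units.coe_prod, ← prod_mul_distrib, Units.val_zpow_eq_zpow_val]
  refine prod_congr rfl fun i _ => ?_
  have h1 : (a i).natAbs ≤ k := single_le_sum (f := fun i => (a i).natAbs)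
    (fun _ _ => Nat.zero_le _) (mem_univ i)
  rw [← zpow_natCast, ← zpow_natCast, Int.toNat_of_nonneg (by omega), zpow_add₀ (g.1 i).ne_zero]

lemma exists_gen (G : Subgroup (Fin N → Kˣ)) :
    ∃ gen : Fin (rkX G) → (G →* Kˣ), ∀ χ, IsChar G χ → χ ∈ Subgroup.closure (Set.range gen) := by
  have h : {r : ℕ | ∃ gen : Fin r → (Pt G →* Kˣ), Gen G gen}.Nonempty := by
    refine ⟨N, fun k => (mon (Pi.single k 1)).comp G.subtype, fun k => isChar_mon G _, ?_⟩
    rintro χ ⟨f, k, hf⟩
    obtain ⟨a, rfl⟩ := char_mon G χ f k hf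
    have h1 : (mon a).comp G.subtype = ∏ k, ((mon (Pi.single k 1)).comp G.subtype) ^ a k := by
      ext g
      simp [mon_apply, Pi.single_apply]
    show (mon a).comp G.subtype ∈ Subgroup.closure
      (Set.range fun k => (mon (Pi.single k 1)).comp G.subtype)
    rw [h1]
    exact Subgroup.prod_mem _ fun k _ => 
      Subgroup.zpow_mem _ (Subgroup.subset_closure (Set.mem_range_self k)) _
  obtain ⟨gen, -, h2⟩ := Nat.sInf_mem h
  exact ⟨gen, h2⟩

theorem result (K : Type) [Field K] [IsAlgClosed K] (N : ℕ) (G : Subgroup (Fin N → Kˣ))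
    (_hG : ZClosed G) (n : ℕ) (g : Fin n → (Fin N → Kˣ))
    (H : Fin n → Subgroup (Fin N → Kˣ)) (hg : ∀ i, g i ∈ G) (hH : ∀ i, H i ≤ G)
    (hHc : ∀ i, ZClosed (H i)) (hempty : ¬ Meet G g H univ) :
    ∃ S : Finset (Fin n), S.card ≤ 1 + rkX G ∧ ¬ Meet G g H S := by
  classical
  by_contra hc
  have hpt : ∀ S : Finset (Fin n), S.card ≤ 1 + rkX G →
      ∃ x ∈ G, ∀ i ∈ S, ∃ h ∈ H i, x = g i * h := fun S hS => by
    by_contra h
    exact hc ⟨S, hS, h⟩
  apply hempty
  obtain ⟨gen, hgen⟩ := exists_gen G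
  let A : Fin n → AddSubgroup (Fin N → ℤ) := fun i =>
    { carrier := {a | ∀ h ∈ H i, mon a h = 1}
      add_mem' := fun {a b} ha hb h hh => by rw [mon_add, ha h hh, hb h hh, one_mul]
      zero_mem' := fun h _ => mon_zero h
      neg_mem' := fun {a} ha h hh => by
        rw [← zero_sub, mon_sub, mon_zero, ha h hh, div_one] }
  let μ : (Fin N → Kˣ) → (Fin N → ℤ) →+ Additive Kˣ := fun x =>
    AddMonoidHom.mk' (fun a => Additive.ofMul (mon a x)) fun a b => by rw [mon_add]; rfl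
  let σ : (∀ i, A i) →+ (Fin N → ℤ) :=
    AddMonoidHom.mk' (fun ρ => ∑ i, (ρ i).1) fun a b => by simp [sum_add_distrib]
  let φ : (∀ i, A i) →+ Additive Kˣ :=
    AddMonoidHom.mk' (fun ρ => ∑ i, μ (g i) (ρ i).1) fun a b => by simp [sum_add_distrib]
  have hker : ∀ ρ, σ ρ = 0 → φ ρ = 0 := by
    intro ρ hρ
    refine AddSubgroup.mem_bot.mp (Pool.Agent.H54.Helly.of_local ⊥ _ fun p hp => ?_)
    let χ : Fin n → Additive (G →* Kˣ) := fun i => Additive.ofMul ((mon (ρ i).1).comp G.subtype)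
    obtain ⟨S, -, hSc, c, hc, h⟩ := Pool.Agent.H54.Helly.loc (fun k => Additive.ofMul (gen k)) χ
      (fun i => by
        rw [← Submodule.mem_toAddSubgroup, Submodule.span_int_eq_addSubgroupClosure]
        have h1 := hgen _ (isChar_mon G (ρ i).1)
        have h2 : Subgroup.closure (Set.range gen) ≤ Subgroup.toAddSubgroup.symm
            (AddSubgroup.closure (Set.range fun k => Additive.ofMul (gen k))) := by
          rw [Subgroup.closure_le]
          rintro _ ⟨k, rfl⟩
          show Additive.ofMul (gen k) ∈ AddSubgroup.closure _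
          exact AddSubgroup.subset_closure (Set.mem_range_self k)
        exact h2 h1) p hp univ
    choose t ht using fun j => h j (mem_univ j)
    refine ⟨c, hc, AddSubgroup.mem_bot.mpr ?_⟩
    have hev : ∀ x ∈ G, ∀ j, c • μ x (ρ j).1 = ∑ s ∈ S, t j s • μ x (ρ s).1 := by
      intro x hx j
      let e : Additive (G →* Kˣ) →+ Additive Kˣ :=
        AddMonoidHom.mk' (fun ψ => Additive.ofMul (ψ.toMul ⟨x, hx⟩)) fun a b => rfl
      have h1 := congrArg e (ht j)
      rw [map_zsmul, map_sum] at h1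
      simp only [map_zsmul] at h1
      exact h1
    have hco : ∀ x i, (∃ h ∈ H i, x = g i * h) → μ x (ρ i).1 = μ (g i) (ρ i).1 := by
      rintro x i ⟨h, hh, rfl⟩
      show Additive.ofMul (mon _ _) = Additive.ofMul (mon _ _)
      rw [map_mul, (ρ i).2 h hh, mul_one]
    obtain ⟨x, hx, hxS⟩ := hpt S (by omega)
    have h1 : ∀ j, c • μ (g j) (ρ j).1 = c • μ x (ρ j).1 := by
      intro j
      obtain ⟨y, hy, hyS⟩ := hpt (insert j S) ((card_insert_le _ _).trans (by omega))
      rw [← hco y j (hyS j (mem_insert_self _ _)), hev y hy, hev x hx]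
      refine sum_congr rfl fun s hs => ?_
      rw [hco y s (hyS s (mem_insert_of_mem hs)), hco x s (hxS s hs)]
    show c • ∑ i, μ (g i) (ρ i).1 = 0
    rw [← Finset.sum_zsmul, sum_congr rfl fun j _ => h1 j, Finset.sum_zsmul, ← map_sum]
    have h2 : ∑ i, (ρ i).1 = 0 := hρ
    rw [h2, map_zero, zsmul_zero]
  obtain ⟨x, hx⟩ := glue σ φ hker
  have hxi : ∀ i, ∃ h ∈ H i, x = g i * h := by
    intro i
    obtain ⟨P, hP⟩ := hHc i
    refine ⟨(g i)⁻¹ * x, mem_of_perp (H i) P (Set.ext hP) _ fun a ha => ?_, by simp⟩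
    have h1 := hx (Pi.single i ⟨a, ha⟩)
    have h2 : σ (Pi.single i ⟨a, ha⟩) = a := by
      show ∑ j, ((Pi.single i ⟨a, ha⟩ : ∀ i, A i) j).1 = a
      rw [sum_eq_single i (fun j _ hj => by rw [Pi.single_eq_of_ne hj]; rfl) (by simp),
        Pi.single_eq_same]
    have h3 : φ (Pi.single i ⟨a, ha⟩) = μ (g i) a := by
      show ∑ j, μ (g j) ((Pi.single i ⟨a, ha⟩ : ∀ i, A i) j).1 = _
      rw [sum_eq_single i (fun j _ hj => by rw [Pi.single_eq_of_ne hj]; exact map_zero _)
        (by simp), Pi.single_eq_same]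
    rw [h2, h3] at h1
    rw [map_mul, h1, map_inv]
    exact inv_mul_cancel _
  rcases Nat.eq_zero_or_pos n with rfl | hn
  · exact ⟨1, G.one_mem, fun i _ => i.elim0⟩
  · obtain ⟨h, hh, e⟩ := hxi ⟨0, hn⟩
    exact ⟨x, e ▸ G.mul_mem (hg _) (hH _ hh), fun i _ => hxi i⟩

end Pool.Agent.Results.MP_baf67b_al.HellyDim
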